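import Pool.Agent.W952.LP.Stm

set_option autoImplicit false

namespace Pool.Agent.W645.LP

open Pool.Agent.Helper227 Pool.Agent.H685R3 Pool.Agent.W952.LP

theorem p_ug : Primrec ug := Primrec.fst.comp Primrec.unpair

theorem p_ui : Primrec ui :=
  Primrec.fst.comp (Primrec.unpair.comp (Primrec.snd.comp Primrec.unpair))

theorem p_ub : Primrec ub :=
  Primrec.fst.comp (Primrec.unpair.comp (Primrec.snd.comp (Primrec.unpair.comp
    (Primrec.snd.comp Primrec.unpair))))

theorem p_um : Primrec um :=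
  Primrec.fst.comp (Primrec.unpair.comp (Primrec.snd.comp (Primrec.unpair.comp
    (Primrec.snd.comp (Primrec.unpair.comp (Primrec.snd.comp Primrec.unpair))))))

theorem p_ul : Primrec ul :=
  Primrec.fst.comp (Primrec.unpair.comp (Primrec.snd.comp (Primrec.unpair.comp
    (Primrec.snd.comp (Primrec.unpair.comp (Primrec.snd.comp (Primrec.unpair.comp
      (Primrec.snd.comp Primrec.unpair))))))))

theorem p_us : Primrec us :=
  Primrec.snd.comp (Primrec.unpair.comp (Primrec.snd.comp (Primrec.unpair.comp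
    (Primrec.snd.comp (Primrec.unpair.comp (Primrec.snd.comp (Primrec.unpair.comp
      (Primrec.snd.comp Primrec.unpair))))))))

theorem p_pow : Primrec₂ (fun a b : ℕ => a ^ b) := Primrec₂.unpaired'.1 Nat.Primrec.pow

theorem p_pow2 {α : Type*} [Primcodable α] {f : α → ℕ} (hf : Primrec f) :
    Primrec fun a => 2 ^ f a := p_pow.comp (Primrec.const 2) hf

theorem pr_first (G : Gd) (hn : Primrec G.nn) : PrimrecPred fun k => ui k < G.nn (ug k) :=
  Primrec.nat_lt.comp p_ui (hn.comp p_ug)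

theorem pr_second : PrimrecPred fun k => um k * 2 ^ ub k + 2 ^ ul k ≤ 2 ^ (ul k + ub k) :=
  Primrec.nat_le.comp
    (Primrec.nat_add.comp (Primrec.nat_mul.comp p_um (p_pow2 p_ub)) (p_pow2 p_ul))
    (p_pow2 (Primrec.nat_add.comp p_ul p_ub))

theorem flag_le : S_flag := by
  intro D G hn hT
  have hT' := tLe_iff_SI.1 hT
  have hq : ∀ r : Bool, SI D fun z : (ℕ × ℕ) × ℕ => G.T (ug z.1.1) z.1.2 z.2 = r := by
    intro r
    refine (hT'.comp (f := fun z : (ℕ × ℕ) × ℕ =>
      (Nat.pair (ug z.1.1) (Nat.pair z.1.2 z.2), r)) ?_).of_eq ?_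
    · exact (Primrec₂.natPair.comp (p_ug.comp (Primrec.fst.comp Primrec.fst))
        (Primrec₂.natPair.comp (Primrec.snd.comp Primrec.fst) Primrec.snd)).pair
          (Primrec.const r)
    · intro z
      simp [tab]
  have h12 : PrimrecPred fun k => ui k < G.nn (ug k) ∧
      um k * 2 ^ ub k + 2 ^ ul k ≤ 2 ^ (ul k + ub k) := (pr_first G hn).and pr_second
  have hpos : SI D fun k => Flag G k := by
    have h3 : SI D fun k => ∀ b < ub k, ∃ c, c < us k ∧ G.T (ug k) b c = true := by
      refine SI.all_lt (p := fun k b => ∃ c, c < us k ∧ G.T (ug k) b c = true) ?_ p_ub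
      refine SI.ex (p := fun (x : ℕ × ℕ) (c : ℕ) => c < us x.1 ∧ G.T (ug x.1) x.2 c = true) ?_
      exact (SI.of_prim (Primrec.nat_lt.comp Primrec.snd
        (p_us.comp (Primrec.fst.comp Primrec.fst)))).and (hq true)
    refine ((SI.of_prim h12).and h3).of_eq fun k => ?_
    exact ⟨fun h => ⟨h.1.1, h.1.2, h.2⟩, fun h => ⟨⟨h.1, h.2.1⟩, h.2.2⟩⟩
  have hneg : SI D fun k => ¬ Flag G k := by
    have h3 : SI D fun k => ∃ b, b < ub k ∧ ∀ c < us k, G.T (ug k) b c = false := by
      refine SI.ex (p := fun (k b : ℕ) => b < ub k ∧ ∀ c < us k, G.T (ug k) b c = false) ?_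
      refine (SI.of_prim (Primrec.nat_lt.comp Primrec.snd (p_ub.comp Primrec.fst))).and ?_
      exact SI.all_lt (α := ℕ × ℕ) (p := fun x c => G.T (ug x.1) x.2 c = false)
        (f := fun x => us x.1) (hq false) (p_us.comp Primrec.fst)
    refine ((SI.of_prim h12.not).or h3).of_eq fun k => ?_
    constructor
    · rintro (h | ⟨b, hb, h⟩) ⟨h1, h2, h3⟩
      · exact h ⟨h1, h2⟩
      · obtain ⟨c, hc, hc'⟩ := h3 b hb
        rw [h c hc] at hc'
        cases hc'
    · intro h
      by_cases h1 : ui k < G.nn (ug k) ∧ um k * 2 ^ ub k + 2 ^ ul k ≤ 2 ^ (ul k + ub k)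
      · refine Or.inr ?_
        by_contra hcon
        push Not at hcon
        refine h ⟨h1.1, h1.2, fun b hb => ?_⟩
        obtain ⟨c, hc, hc'⟩ := hcon b hb
        exact ⟨c, hc, by simpa using hc'⟩
      · exact Or.inl h1
  rw [tLe_iff_SI]
  have h1 : SI D fun x : ℕ × Bool => (x.2 = true ∧ Flag G x.1) ∨ (x.2 = false ∧ ¬ Flag G x.1) := by
    refine SI.or (SI.and (SI.of_prim ?_) (hpos.comp Primrec.fst))
      (SI.and (SI.of_prim ?_) (hneg.comp Primrec.fst))
    · exact Primrec.eq.comp Primrec.snd (Primrec.const true)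
    · exact Primrec.eq.comp Primrec.snd (Primrec.const false)
  refine h1.of_eq fun x => ?_
  obtain ⟨k, b⟩ := x
  cases b <;> simp [flag]

end Pool.Agent.W645.LP
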